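import Mathlib

/-!
# Two inequivalent extreme 64-element subsets of `ℤ/127`
-/

namespace Pool.Agent.Results.MP_6d480e_an.InequivalentExtreme

open Finset ComplexConjugate

/-- A subset `E` of `ZMod k` is extreme if it carries a measure `c` with unimodular coefficients
on `E` (and zero off `E`) such that the convolution of `c` with its adjoint is `|E| δ₀`, i.e.
`∑ x, c x * conj (c (x - t))` is `|E|` for `t = 0` and `0` for `t ≠ 0`. -/
def Extreme {k : ℕ} [NeZero k] (E : Finset (ZMod k)) : Prop :=
  ∃ c : ZMod k → ℂ, (∀ x ∈ E, ‖c x‖ = 1) ∧ (∀ x ∉ E, c x = 0) ∧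
    ∀ t, ∑ x, c x * conj (c (x - t)) = if t = 0 then (E.card : ℂ) else 0

/-- `F` is equivalent to `E` if it is an affine image `a E + b` with `a ≠ 0`. -/
def Equivalent {p : ℕ} [NeZero p] (E F : Finset (ZMod p)) : Prop :=
  ∃ a b : ZMod p, a ≠ 0 ∧ F = E.image (fun x => a * x + b)

/-- The positive part of the first weighing sequence. -/
def P1 : ℕ := 144395443378137741935860105331066560641
/-- The negative part of the first weighing sequence. -/
def M1 : ℕ := 23967983297652233738373723793576689664
/-- The positive part of the second weighing sequence. -/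
def P2 : ℕ := 25307595253328836530604980288239010071
/-- The negative part of the second weighing sequence. -/
def M2 : ℕ := 5838254879836793180944993298070110208

/-- The sequence with values in `{0, 1, -1}` coded by two bit masks. -/
def sq (P M : ℕ) (x : Fin 127) : ℤ :=
  if P.testBit x.val then 1 else if M.testBit x.val then -1 else 0

/-- The support of the coded sequence. -/
def suppF (P M : ℕ) : Finset (Fin 127) := univ.filter (fun x => sq P M x ≠ 0)

/-- The support as a subset of `ZMod 127`. -/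
def supp (P M : ℕ) : Finset (ZMod 127) := suppF P M

/-- Number of `x ∈ E` with `x + s ∈ E`. -/
def count (E : Finset (ZMod 127)) (s : ZMod 127) : ℕ := (E.filter (fun x => x + s ∈ E)).card

/-- The same count on `Fin 127`. -/
def countF (E : Finset (Fin 127)) (s : Fin 127) : ℕ := (E.filter (fun x => x + s ∈ E)).card

lemma mem_suppF (P M : ℕ) (x : Fin 127) : x ∈ suppF P M ↔ sq P M x ≠ 0 := by
  unfold suppF
  simp

lemma ac1 : ∀ t : Fin 127, ∑ x : Fin 127, sq P1 M1 x * sq P1 M1 (x - t) =
    if t = 0 then 64 else 0 := by decide +kernel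

lemma ac2 : ∀ t : Fin 127, ∑ x : Fin 127, sq P2 M2 x * sq P2 M2 (x - t) =
    if t = 0 then 64 else 0 := by decide +kernel

lemma card1 : (suppF P1 M1).card = 64 := by decide +kernel
lemma card2 : (suppF P2 M2).card = 64 := by decide +kernel

lemma abs_sq : ∀ P M : ℕ, ∀ x : Fin 127, sq P M x ≠ 0 → sq P M x = 1 ∨ sq P M x = -1 := by
  intro P M x h
  unfold sq at *
  split_ifs at * <;> simp_all

lemma cnt1 : ∀ s : Fin 127, s ≠ 0 →
    ((univ : Finset (Fin 127)).filter (fun x => sq P1 M1 x ≠ 0 ∧ sq P1 M1 (x + s) ≠ 0)).card =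
      32 := by decide +kernel

lemma cnt2 : ((univ : Finset (Fin 127)).filter
    (fun x => sq P2 M2 x ≠ 0 ∧ sq P2 M2 (x + 3) ≠ 0)).card ≠ 32 := by decide +kernel

lemma count_eq (P M : ℕ) (s : Fin 127) : count (supp P M) s =
    ((univ : Finset (Fin 127)).filter (fun x => sq P M x ≠ 0 ∧ sq P M (x + s) ≠ 0)).card := by
  have h : countF (suppF P M) s = ((univ : Finset (Fin 127)).filter
      (fun x => sq P M x ≠ 0 ∧ sq P M (x + s) ≠ 0)).card := by
    unfold countF suppF
    rw [Finset.filter_filter]
    congr 1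
    ext x
    simp
  exact h

lemma extreme_of (P M : ℕ) (hc : (suppF P M).card = 64)
    (hac : ∀ t : Fin 127, ∑ x : Fin 127, sq P M x * sq P M (x - t) = if t = 0 then 64 else 0) :
    Extreme (supp P M) := by
  have hc' : (supp P M).card = 64 := hc
  refine ⟨fun x => ((sq P M x : ℤ) : ℂ), ?_, ?_, ?_⟩
  · intro x hx
    have h1 : sq P M x ≠ 0 := (mem_suppF P M x).mp hx
    rcases abs_sq P M x h1 with h | h
    · simp [h]
    · simp [h]
  · intro x hx
    have h1 : sq P M x = 0 := by
      by_contra hne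
      exact hx ((mem_suppF P M x).mpr hne)
    simp only
    rw [h1]
    simp
  · intro t
    have h1 : ∀ x : ZMod 127, ((sq P M x : ℤ) : ℂ) * conj ((sq P M (x - t) : ℤ) : ℂ) =
        ((sq P M x * sq P M (x - t) : ℤ) : ℂ) := by
      intro x
      rw [map_intCast, Int.cast_mul]
    simp only [h1]
    rw [← Int.cast_sum]
    have h2 : ∑ x : ZMod 127, sq P M x * sq P M (x - t) = if t = 0 then 64 else 0 := hac t
    rw [h2, hc']
    split_ifs <;> simp

lemma count_image (E : Finset (ZMod 127)) (a b s : ZMod 127) (ha : a ≠ 0) :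
    count (E.image (fun x => a * x + b)) (a * s) = count E s := by
  have : Fact (Nat.Prime 127) := ⟨by norm_num⟩
  have hinj : Function.Injective (fun x : ZMod 127 => a * x + b) := by
    intro x y h
    simp only at h
    exact mul_left_cancel₀ ha (add_right_cancel h)
  have h1 : (E.image (fun x => a * x + b)).filter (fun x => x + a * s ∈ E.image
      (fun x => a * x + b)) = (E.filter (fun x => x + s ∈ E)).image (fun x => a * x + b) := by
    ext y
    simp only [Finset.mem_filter, Finset.mem_image]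
    constructor
    · rintro ⟨⟨x, hx, rfl⟩, ⟨z, hz, he⟩⟩
      refine ⟨x, ⟨hx, ?_⟩, rfl⟩
      have h2 : a * z = a * (x + s) := by linear_combination he
      have h3 := mul_left_cancel₀ ha h2
      rwa [← h3]
    · rintro ⟨x, ⟨hx, hxs⟩, rfl⟩
      exact ⟨⟨x, hx, rfl⟩, ⟨x + s, hxs, by ring⟩⟩
  unfold count
  rw [h1, Finset.card_image_of_injective _ hinj]

lemma three_ne : (3 : ZMod 127) ≠ 0 := by decide

lemma not_equivalent : ¬ Equivalent (supp P1 M1) (supp P2 M2) := by
  have : Fact (Nat.Prime 127) := ⟨by norm_num⟩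
  rintro ⟨a, b, ha, hF⟩
  have h1 := count_image (supp P1 M1) a b (a⁻¹ * 3) ha
  rw [← hF] at h1
  have h2 : a * (a⁻¹ * 3) = 3 := by rw [← mul_assoc, mul_inv_cancel₀ ha, one_mul]
  rw [h2] at h1
  have hs : a⁻¹ * 3 ≠ 0 := mul_ne_zero (inv_ne_zero ha) three_ne
  have h4 : count (supp P2 M2) 3 = ((univ : Finset (Fin 127)).filter
      (fun x => sq P2 M2 x ≠ 0 ∧ sq P2 M2 (x + 3) ≠ 0)).card := count_eq P2 M2 3
  have h5 : count (supp P1 M1) (a⁻¹ * 3) = 32 := by
    generalize a⁻¹ * 3 = t at hs
    exact (count_eq P1 M1 t).trans (cnt1 t hs)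
  rw [h5] at h1
  rw [h1] at h4
  exact cnt2 h4.symm

/-- There are a prime `p` and an `n` with `1 < n < p` (namely `p = 127`, `n = 64`) and two extreme
`n`-element subsets of `ZMod p` that are not equivalent under any affine map. -/
theorem result :
    (∃ E F : Finset (ZMod 127), E.card = 64 ∧ F.card = 64 ∧ Extreme E ∧ Extreme F ∧
      ¬ Equivalent E F) ∧
    ¬ (∀ (p : ℕ) [NeZero p], p.Prime → ∀ n : ℕ, 1 < n → n < p → ∀ E F : Finset (ZMod p),
      E.card = n → F.card = n → Extreme E → Extreme F → Equivalent E F) := by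
  have h1 : (supp P1 M1).card = 64 := card1
  have h2 : (supp P2 M2).card = 64 := card2
  refine ⟨⟨supp P1 M1, supp P2 M2, h1, h2, extreme_of _ _ card1 ac1, extreme_of _ _ card2 ac2,
    not_equivalent⟩, ?_⟩
  intro h
  exact not_equivalent (h 127 (by norm_num) 64 (by norm_num) (by norm_num) _ _ h1 h2
    (extreme_of _ _ card1 ac1) (extreme_of _ _ card2 ac2))

end Pool.Agent.Results.MP_6d480e_an.InequivalentExtreme
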